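import Pool.Agent.Y681.NB.Lap0
import Pool.Agent.Y681.NB.Rad

/-!
# NB: Laplacians (jobs done by helper681)
-/

set_option autoImplicit false

namespace Pool.Agent.Y744.NB

theorem lap0 : S_LAP0 := Pool.Agent.Y681.NB.Lap0.t

theorem rad : S_RAD := Pool.Agent.Y681.NB.Rad.t

end Pool.Agent.Y744.NB
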