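import Mathlib

/-!
# Project NB: no bounded solutions of the nonlocal two-component system in every dimension
(helper744, MP_360b3f_an). Definitions and statements of the steps.
-/

set_option autoImplicit false

open MeasureTheory Set Filter Topology Metric
open scoped ContDiff

namespace Pool.Agent.Y744.NB

/-- Euclidean space -/
abbrev E (N : ℕ) : Type := EuclideanSpace ℝ (Fin N)

/-- `J_K w (x) = ⟨K⟩ w(x) - (K * w)(x)`, where `⟨K⟩ = ∫ K`. -/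
noncomputable def nonlocalOp {N : ℕ} (K w : E N → ℝ) (x : E N) : ℝ :=
  (∫ y, K y) * w x - ∫ y, K y * w (x - y)

/-- `(u, v)` is a weak solution on `[0, T]` with `0 ≤ u ≤ M` and `0 ≤ v ≤ 1`. -/
structure Sol {N : ℕ} (K : E N → ℝ) (f : ℝ → ℝ) (u₀ : E N → ℝ) (T M : ℝ)
    (u v : ℝ → E N → ℝ) : Prop where
  measurable_u : Measurable (Function.uncurry u)
  measurable_v : Measurable (Function.uncurry v)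
  u_nonneg : ∀ t ∈ Icc 0 T, ∀ x, 0 ≤ u t x
  u_le : ∀ t ∈ Icc 0 T, ∀ x, u t x ≤ M
  v_mem : ∀ t ∈ Icc 0 T, ∀ x, v t x ∈ Icc (0:ℝ) 1
  eq_u : ∀ t ∈ Icc 0 T, ∀ᵐ x, u t x
    = u₀ x + ∫ s in (0:ℝ)..t, (v s x * f (u s x) - nonlocalOp K (u s) x)
  eq_v : ∀ φ : E N → ℝ, ContDiff ℝ ∞ φ → HasCompactSupport φ → ∀ t ∈ Icc 0 T,
    ∫ x, v t x * φ x = (∫ x, φ x)
      + ∫ s in (0:ℝ)..t, ∫ x, (v s x * Laplacian.laplacian φ x - v s x * f (u s x) * φ x)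

/-- assumptions on the kernel -/
structure Ker {N : ℕ} (K : E N → ℝ) : Prop where
  cont : Continuous K
  supp : HasCompactSupport K
  nonneg : ∀ x, 0 ≤ K x

/-- The time integrals `Z = ∫ (1 - v)`, `H = ∫ v f(u)` over `[0, τ]`, and `d = 1 - v(τ)`. -/
structure Static {N : ℕ} (S : Set (E N)) (τ F M : ℝ) (Z H d : E N → ℝ) : Prop where
  mZ : Measurable Z
  mH : Measurable H
  md : Measurable d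
  Z_mem : ∀ x, Z x ∈ Icc 0 τ
  H_mem : ∀ x, H x ∈ Icc 0 M
  d_mem : ∀ x, d x ∈ Icc (0:ℝ) 1
  eq : ∀ φ : E N → ℝ, ContDiff ℝ ∞ φ → HasCompactSupport φ →
    (∫ x, H x * φ x) + ∫ x, Z x * Laplacian.laplacian φ x = ∫ x, d x * φ x
  bd : ∀ φ : E N → ℝ, ContDiff ℝ ∞ φ → HasCompactSupport φ → (∀ x, 0 ≤ φ x) →
    ∫ x, Z x * φ x ≤ τ * ((∫ x, H x * φ x) + τ * ∫ x, |Laplacian.laplacian φ x|)
  bulk : ∀ᵐ x, x ∉ S → H x ≤ τ * F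
  spike : ∀ᵐ x, x ∈ S → 3 * τ / 4 ≤ Z x

/-- STAT: from a solution to the static data. -/
def S_STAT : Prop := ∀ (N : ℕ) (K : E N → ℝ) (f : ℝ → ℝ) (a T : ℝ), Ker K → Continuous f →
  (∀ r, 0 ≤ f r) → (∀ r, a ≤ r → 0 < f r) → IntegrableOn (fun r => 1 / f r) (Ioi a) →
  Tendsto (fun r => r / f r) atTop (𝓝 0) → 0 < T →
  ∃ F : ℝ, 0 < F ∧ ∃ τ₀ : ℝ, 0 < τ₀ ∧ τ₀ ≤ T ∧ ∀ τ : ℝ, 0 < τ → τ ≤ τ₀ → ∃ A : ℝ, 0 < A ∧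
    ∀ S : Set (E N), MeasurableSet S → volume S ≤ ENNReal.ofReal (1 / A) →
      ∀ (M : ℝ) (u v : ℝ → E N → ℝ), Sol K f (S.indicator fun _ => A) T M u v →
        ∃ (M' : ℝ) (Z H d : E N → ℝ), Static S τ F M' Z H d

/-- FIN: there are no static data for suitable unions of small balls. -/
def S_FIN : Prop := ∀ (N : ℕ) (F : ℝ), 2 ≤ N → 0 < F → ∃ τ₁ : ℝ, 0 < τ₁ ∧ ∀ τ : ℝ, 0 < τ →
  τ ≤ τ₁ → ∀ η : ℝ, 0 < η → ∃ S : Set (E N), MeasurableSet S ∧ S ⊆ closedBall 0 2 ∧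
    volume S ≤ ENNReal.ofReal η ∧ ∀ (M : ℝ) (Z H d : E N → ℝ), ¬ Static S τ F M Z H d

/-! ### Jobs for STAT -/

/-- job MASS: local mass bound -/
def S_MASS : Prop := ∀ (N : ℕ) (K : E N → ℝ), Ker K → ∃ B τ₀ : ℝ, 0 < B ∧ 0 < τ₀ ∧
  ∀ (f : ℝ → ℝ) (u₀ : E N → ℝ) (T M : ℝ) (u v : ℝ → E N → ℝ), Continuous f → (∀ r, 0 ≤ f r) →
    Measurable u₀ → (∀ x, 0 ≤ u₀ x) → Integrable u₀ → ∫ x, u₀ x ≤ 1 → Sol K f u₀ T M u v →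
      ∀ t ∈ Icc 0 T, t ≤ τ₀ → ∀ x, ∫ y, K y * u t (x - y) ≤ B

/-- job PT: the first equation pointwise in `x` -/
def S_PT : Prop := ∀ (N : ℕ) (K : E N → ℝ) (f : ℝ → ℝ) (u₀ : E N → ℝ) (T M : ℝ)
  (u v : ℝ → E N → ℝ), Ker K → Continuous f → Measurable u₀ → 0 < T → Sol K f u₀ T M u v →
    ∀ᵐ x, ∃ w g : ℝ → ℝ, IntervalIntegrable g volume 0 T ∧
      (∀ t ∈ Icc 0 T, w t = u₀ x + ∫ s in (0:ℝ)..t, g s) ∧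
      ∀ᵐ s, s ∈ Icc 0 T → w s = u s x ∧ g s = v s x * f (u s x) - nonlocalOp K (u s) x

/-- job ODE1: the bulk -/
def S_ODE1 : Prop := ∀ (T τ D : ℝ) (w g : ℝ → ℝ), 0 < τ → τ ≤ T → 0 < D → τ * D < 1 →
  IntervalIntegrable g volume 0 T → (∀ t ∈ Icc 0 T, w t = ∫ s in (0:ℝ)..t, g s) →
  (∀ᵐ s, s ∈ Icc 0 T → s ≤ τ → w s ≤ 1 → g s ≤ D) → ∀ t ∈ Icc 0 τ, w t ≤ 1

/-- job ODE2: the balls -/
def S_ODE2 : Prop := ∀ (f : ℝ → ℝ) (a k τ T A : ℝ) (w g p : ℝ → ℝ), Continuous f → 0 < a →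
  (∀ r, 0 ≤ f r) → (∀ r, a ≤ r → 0 < f r) → IntegrableOn (fun r => 1 / f r) (Ioi a) → 0 ≤ k →
  (∀ r, a ≤ r → 8 * k * r ≤ f r) → 0 < τ → τ ≤ T → 2 * k * τ ≤ 1 → 2 * a < A →
  8 * (∫ r in Ioi A, 1 / f r) ≤ τ → IntervalIntegrable g volume 0 T →
  (∀ t ∈ Icc 0 T, w t = A + ∫ s in (0:ℝ)..t, g s) → Measurable p → (∀ s ∈ Icc 0 T, p s ∈ Icc (0:ℝ) 1) →
  (∀ᵐ s, s ∈ Icc 0 T → 0 ≤ w s ∧ p s * f (w s) - k * w s ≤ g s) →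
    ∫ s in (0:ℝ)..τ, p s ≤ τ / 4

/-- job FUB: time integrals -/
def S_FUB : Prop := ∀ (N : ℕ) (K : E N → ℝ) (f : ℝ → ℝ) (u₀ : E N → ℝ) (T M τ : ℝ)
  (u v : ℝ → E N → ℝ), Continuous f → (∀ r, 0 ≤ f r) → Sol K f u₀ T M u v → 0 < τ → τ ≤ T →
  ∃ (M' : ℝ) (Z H d : E N → ℝ), Measurable Z ∧ Measurable H ∧ Measurable d ∧
    (∀ x, Z x = ∫ s in (0:ℝ)..τ, (1 - v s x)) ∧ (∀ x, H x = ∫ s in (0:ℝ)..τ, v s x * f (u s x)) ∧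
    (∀ x, Z x ∈ Icc 0 τ) ∧ (∀ x, H x ∈ Icc 0 M') ∧ (∀ x, d x ∈ Icc (0:ℝ) 1) ∧
    (∀ φ : E N → ℝ, ContDiff ℝ ∞ φ → HasCompactSupport φ →
      (∫ x, H x * φ x) + ∫ x, Z x * Laplacian.laplacian φ x = ∫ x, d x * φ x) ∧
    ∀ φ : E N → ℝ, ContDiff ℝ ∞ φ → HasCompactSupport φ → (∀ x, 0 ≤ φ x) →
      ∫ x, Z x * φ x ≤ τ * ((∫ x, H x * φ x) + τ * ∫ x, |Laplacian.laplacian φ x|)

/-! ### Jobs for FIN -/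

/-- job LAP0: the integral of a Laplacian vanishes -/
def S_LAP0 : Prop := ∀ (N : ℕ) (φ : E N → ℝ), ContDiff ℝ ∞ φ → HasCompactSupport φ →
  ∫ x, Laplacian.laplacian φ x = 0

/-- job RAD: Laplacian of a radial function -/
def S_RAD : Prop := ∀ (N : ℕ) (h : ℝ → ℝ) (b : ℝ), 0 < b → ContDiffOn ℝ ∞ h (Ioi (-b)) →
  ContDiff ℝ ∞ (fun y : E N => h (‖y‖ ^ 2)) ∧
    ∀ y : E N, Laplacian.laplacian (fun y : E N => h (‖y‖ ^ 2)) y =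
      4 * ‖y‖ ^ 2 * deriv (deriv h) (‖y‖ ^ 2) + 2 * N * deriv h (‖y‖ ^ 2)

/-- the profile -/
noncomputable def gw (N : ℕ) (ε σ : ℝ) : ℝ := (σ + ε ^ 2) ^ (-(N : ℝ) / 2)

/-- the test function as a function of `‖y‖ ^ 2` -/
noncomputable def Ps (N : ℕ) (χ : ℝ → ℝ) (R ε s : ℝ) : ℝ := ∫ σ in s..R, gw N ε σ * χ σ

/-- job PSH: derivatives of the profile -/
def S_PSH : Prop := ∀ (N : ℕ) (χ : ℝ → ℝ) (R ε : ℝ), 0 < ε → 0 < R → ContDiff ℝ ∞ χ →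
  ContDiffOn ℝ ∞ (Ps N χ R ε) (Ioi (-ε ^ 2)) ∧ ∀ s : ℝ, -ε ^ 2 < s →
    deriv (Ps N χ R ε) s = -(gw N ε s * χ s) ∧
    deriv (deriv (Ps N χ R ε)) s =
      (N : ℝ) / 2 * (gw N ε s / (s + ε ^ 2)) * χ s - gw N ε s * deriv χ s

/-- job LIM: two limits -/
def S_LIM : Prop := ∀ (N : ℕ) (R : ℝ), 2 ≤ N → 0 < R →
  Tendsto (fun ε : ℝ => ε ^ N * ∫ σ in (0:ℝ)..R, gw N ε σ) (𝓝[>] 0) (𝓝 0) ∧
  Tendsto (fun ε : ℝ => ∫ σ in (ε ^ 2)..R, gw N ε σ) (𝓝[>] 0) atTop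

/-- job VOL: the integral of the test function -/
def S_VOL : Prop := ∀ (N : ℕ) (χ : ℝ → ℝ) (R ε : ℝ), 0 < ε → 0 < R → Continuous χ →
  (∀ s, χ s ∈ Icc (0:ℝ) 1) → (∀ s, R ≤ s → χ s = 0) →
    ∫ y : E N, Ps N χ R ε (‖y‖ ^ 2) ≤ R * volume.real (ball (0 : E N) 1)

/-- job PSI (from RAD, PSH, LIM, VOL): the test functions -/
def S_PSI : Prop := ∀ N : ℕ, 2 ≤ N → ∃ c : ℝ, 0 < c ∧ ∀ r : ℝ, 0 < r → ∃ (C : ℝ) (κ l : ℝ → ℝ),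
  0 < C ∧ Tendsto (fun ε => ε ^ N * κ ε) (𝓝[>] 0) (𝓝 0) ∧ Tendsto l (𝓝[>] 0) atTop ∧
  ∀ ε : ℝ, 0 < ε → ε < r → ∃ ψ : E N → ℝ, ContDiff ℝ ∞ ψ ∧ HasCompactSupport ψ ∧
    (∀ y, 0 ≤ ψ y) ∧ (∀ y, 2 * r ≤ ‖y‖ → ψ y = 0) ∧
    ∫ y, ψ y ≤ 4 * r ^ 2 * volume.real (ball (0 : E N) 1) ∧ (∀ y, ψ y ≤ κ ε) ∧
    (∀ ρ : ℝ, 0 < ρ → ∀ y, ρ ≤ ‖y‖ → ψ y * ρ ^ N ≤ 4 * r ^ 2) ∧ (∀ y, ‖y‖ ≤ ε → l ε ≤ ψ y) ∧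
    (∀ y, ‖y‖ ≤ ε → c ≤ -Laplacian.laplacian ψ y * ε ^ N) ∧
    (∀ y, -C ≤ -Laplacian.laplacian ψ y) ∧
    ∀ y, ‖y‖ ≤ r ∨ 2 * r ≤ ‖y‖ → 0 ≤ -Laplacian.laplacian ψ y

/-- job PAR: the balls -/
def S_PAR : Prop := ∀ (N : ℕ) (r η δ : ℝ) (θ : ℝ → ℝ), 1 ≤ N → 0 < r → 0 < η → 0 < δ →
  (∀ ε, 0 < ε → 0 ≤ θ ε) → Tendsto θ (𝓝[>] 0) (𝓝 0) →
  ∃ (x : ℕ → E N) (ε : ℕ → ℝ), (∀ i, 0 < ε i ∧ ε i < r) ∧ Tendsto ε atTop (𝓝 0) ∧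
    (∀ i, closedBall (x i) (ε i) ⊆ closedBall 0 2) ∧
    (∀ i j, i ≠ j → ∀ y ∈ closedBall (x i) (ε i), (1 / 2) ^ (i + 2) ≤ ‖y - x j‖) ∧
    volume (⋃ i, closedBall (x i) (ε i)) ≤ ENNReal.ofReal η ∧
    (Summable fun i => θ (ε i)) ∧ ∑' i, θ (ε i) ≤ δ ∧
    (Summable fun i => θ (ε i) / ((1 / 2) ^ (i + 2)) ^ N) ∧
    ∑' i, θ (ε i) / ((1 / 2) ^ (i + 2)) ^ N ≤ δ

/-- job CUT: a cutoff function -/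
def S_CUT : Prop := ∀ (N : ℕ) (R : ℝ), 0 < R → ∃ φ : E N → ℝ, ContDiff ℝ ∞ φ ∧
  HasCompactSupport φ ∧ (∀ x, φ x ∈ Icc (0:ℝ) 1) ∧ (∀ x ∈ closedBall (0 : E N) R, φ x = 1)

end Pool.Agent.Y744.NB
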