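import Pool.Agent.Y744.NB.Fin4
import Pool.Agent.Y4.NB.MASS
import Pool.Agent.Y656.NB.PT
import Pool.Agent.Y420.NB.LIM
import Pool.Agent.Y420.NB.ODE1
import Pool.Agent.Y420.NB.PSH
import Pool.Agent.Y41.NB.FUB
import Pool.Agent.Y41.NB.VOL
import Pool.Agent.Y945.NB.PSI
import Pool.Agent.Y909.NB.PAR
import Pool.Agent.Y291.NB.Stat
import Pool.Agent.Y446.NB.ODE2

/-!
# NB: assembly (helper744)
-/

set_option autoImplicit false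

open MeasureTheory Set Filter Topology Metric
open scoped ContDiff

namespace Pool.Agent.Y744.NB

theorem stat (hL : S_LAP0) : S_STAT :=
  Pool.Agent.Y291.NB.Stat.t Pool.Agent.Y4.NB.MASS.t Pool.Agent.Y656.NB.PT.t
    Pool.Agent.Y420.NB.ODE1.t Pool.Agent.Y446.NB.ODE2.t (Pool.Agent.Y41.NB.FUB.t hL)

theorem fin (hL : S_LAP0) (hR : S_RAD) : S_FIN :=
  MFIN (Pool.Agent.Y945.NB.PSI.t hR Pool.Agent.Y420.NB.PSH.t Pool.Agent.Y420.NB.LIM.t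
    Pool.Agent.Y41.NB.VOL.t) Pool.Agent.Y909.NB.PAR.t hL

/-- the main theorem for continuous `f` -/
theorem main (hL : S_LAP0) (hR : S_RAD) (N : ℕ) (hN : 2 ≤ N) (K : E N → ℝ) (hK : Ker K)
    (f : ℝ → ℝ) (a T : ℝ) (hf : Continuous f) (hf0 : ∀ r, 0 ≤ f r) (hfa : ∀ r, a ≤ r → 0 < f r)
    (hfi : IntegrableOn (fun r => 1 / f r) (Ioi a))
    (hfl : Tendsto (fun r => r / f r) atTop (𝓝 0)) (hT : 0 < T) :
    ∃ (S : Set (E N)) (A : ℝ), 0 < A ∧ MeasurableSet S ∧ S ⊆ closedBall 0 2 ∧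
      ∀ (M : ℝ) (u v : ℝ → E N → ℝ), ¬ Sol K f (S.indicator fun _ => A) T M u v := by
  obtain ⟨F, hF, τ₀, hτ₀, hτT, hst⟩ := stat hL N K f a T hK hf hf0 hfa hfi hfl hT
  obtain ⟨τ₁, hτ₁, hfin⟩ := fin hL hR N F hN hF
  obtain ⟨A, hA, hA'⟩ := hst (min τ₀ τ₁) (lt_min hτ₀ hτ₁) (min_le_left _ _)
  obtain ⟨S, hS1, hS2, hS3, hS4⟩ := hfin (min τ₀ τ₁) (lt_min hτ₀ hτ₁) (min_le_right _ _) (1 / A)
    (by positivity)
  refine ⟨S, A, hA, hS1, hS2, fun M u v hsol => ?_⟩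
  obtain ⟨M', Z, H, d, h⟩ := hA' S hS1 hS3 M u v hsol
  exact hS4 M' Z H d h

end Pool.Agent.Y744.NB
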