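import Pool.Agent.Y744.NB.Stm

/-!
# NB: tools for the final contradiction (helper744)
-/

set_option autoImplicit false

open MeasureTheory Set Filter Topology Metric
open scoped ContDiff

namespace Pool.Agent.Y744.NB

variable {N : ℕ}

theorem lap_shift (ψ : E N → ℝ) (a x : E N) :
    Laplacian.laplacian (fun y => ψ (y - a)) x = Laplacian.laplacian ψ (x - a) := by
  rw [InnerProductSpace.laplacian_eq_iteratedFDeriv_stdOrthonormalBasis,
    InnerProductSpace.laplacian_eq_iteratedFDeriv_stdOrthonormalBasis]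
  refine Finset.sum_congr rfl fun i _ => ?_
  rw [iteratedFDeriv_comp_sub]

theorem lap_cont {ψ : E N → ℝ} (h : ContDiff ℝ ∞ ψ) : Continuous (Laplacian.laplacian ψ) := by
  rw [InnerProductSpace.laplacian_eq_iteratedFDeriv_stdOrthonormalBasis]
  have h2 : Continuous (iteratedFDeriv ℝ 2 ψ) :=
    h.continuous_iteratedFDeriv (m := 2) (WithTop.coe_le_coe.2 le_top)
  refine continuous_finsetSum _ fun i _ => ?_
  exact (ContinuousMultilinearMap.apply ℝ (fun _ : Fin 2 => E N) ℝ
    ![(stdOrthonormalBasis ℝ (E N)) i, (stdOrthonormalBasis ℝ (E N)) i]).continuous.comp h2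

theorem lap_zero_of {ψ : E N → ℝ} {x : E N} (hx : x ∉ tsupport ψ) :
    Laplacian.laplacian ψ x = 0 := by
  have h1 : ψ =ᶠ[𝓝 x] fun _ => (0 : ℝ) := by
    filter_upwards [(isClosed_tsupport ψ).isOpen_compl.mem_nhds hx] with y hy
    exact image_eq_zero_of_notMem_tsupport hy
  have h2 := InnerProductSpace.laplacian_congr_nhds h1
  have h3 := h2.self_of_nhds
  rw [h3, InnerProductSpace.laplacian_const]
  rfl

theorem lap_supp {ψ : E N → ℝ} (h : HasCompactSupport ψ) :
    HasCompactSupport (Laplacian.laplacian ψ) :=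
  HasCompactSupport.intro h fun _ hx => lap_zero_of hx

theorem int_mul {g φ : E N → ℝ} {M : ℝ} (hg : Measurable g) (hM : ∀ x, |g x| ≤ M)
    (hφ : Continuous φ) (hc : HasCompactSupport φ) : Integrable (fun x => g x * φ x) := by
  refine (hφ.integrable_of_hasCompactSupport hc).bdd_mul hg.aestronglyMeasurable
    (c := M) (Eventually.of_forall fun x => ?_)
  rw [Real.norm_eq_abs]
  exact hM x

theorem iUnion_le {g : E N → ℝ} (hg : Integrable g) (h0 : ∀ x, 0 ≤ g x) (B : ℕ → Set (E N))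
    (b : ℕ → ℝ) (hb : Summable b) (hle : ∀ i, ∫ x in B i, g x ≤ b i) :
    ∫ x in ⋃ i, B i, g x ≤ ∑' i, b i := by
  have hb0 : ∀ i, 0 ≤ b i := fun i => (integral_nonneg fun x => h0 x).trans (hle i)
  have key : ∀ s : Set (E N), ∫ x in s, g x = (∫⁻ x in s, ENNReal.ofReal (g x)).toReal := by
    intro s
    exact integral_eq_lintegral_of_nonneg_ae (Eventually.of_forall h0)
      hg.aestronglyMeasurable.restrict
  have hfin : ∀ s : Set (E N), ∫⁻ x in s, ENNReal.ofReal (g x) ≠ ⊤ := by
    intro s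
    have h1 : ∫⁻ x in s, ENNReal.ofReal (g x) ≤ ∫⁻ x, ENNReal.ofReal (g x) :=
      setLIntegral_le_lintegral _ _
    have h2 : ∫⁻ x, ENNReal.ofReal (g x) ≠ ⊤ := by
      have h3 := hg.hasFiniteIntegral
      rw [hasFiniteIntegral_iff_ofReal (Eventually.of_forall h0)] at h3
      exact h3.ne
    exact ne_top_of_le_ne_top h2 h1
  rw [key]
  have h4 : ∫⁻ x in ⋃ i, B i, ENNReal.ofReal (g x) ≤ ENNReal.ofReal (∑' i, b i) := by
    refine (lintegral_iUnion_le _ _).trans ?_
    rw [ENNReal.ofReal_tsum_of_nonneg hb0 hb]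
    refine ENNReal.tsum_le_tsum fun i => ?_
    rw [← ENNReal.ofReal_toReal (hfin (B i)), ← key]
    exact ENNReal.ofReal_le_ofReal (hle i)
  exact ENNReal.toReal_le_of_le_ofReal (tsum_nonneg hb0) h4

end Pool.Agent.Y744.NB
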