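import Pool.Agent.Y744.NB.Fin1

/-!
# NB: the final contradiction (helper744)
-/

set_option autoImplicit false

open MeasureTheory Set Filter Topology Metric
open scoped ContDiff

namespace Pool.Agent.Y744.NB

variable {N : ℕ}

/-- volume of a ball -/
theorem vol_ball (a : E N) {ε : ℝ} (hε : 0 ≤ ε) :
    volume.real (closedBall a ε) = ε ^ N * volume.real (ball (0 : E N) 1) := by
  unfold Measure.real
  rw [Measure.addHaar_closedBall _ _ hε, ENNReal.toReal_mul, finrank_euclideanSpace_fin,
    ENNReal.toReal_ofReal (by positivity)]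

theorem vol_pos : 0 < volume.real (ball (0 : E N) 1) := by
  unfold Measure.real
  exact ENNReal.toReal_pos (measure_ball_pos _ _ one_pos).ne' measure_ball_lt_top.ne

/-- properties of the translated test function -/
structure TFn (r c C k l : ℝ) (ε : ℝ) (a : E N) (ψ : E N → ℝ) : Prop where
  sm : ContDiff ℝ ∞ ψ
  cs : HasCompactSupport ψ
  nn : ∀ y, 0 ≤ ψ y
  int : ∫ y, ψ y ≤ 4 * r ^ 2 * volume.real (ball (0 : E N) 1)
  up : ∀ y, ψ y ≤ k
  far : ∀ ρ : ℝ, 0 < ρ → ∀ y, ρ ≤ ‖y - a‖ → ψ y * ρ ^ N ≤ 4 * r ^ 2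
  lo : ∀ y ∈ closedBall a ε, l ≤ ψ y
  lap : ∀ y, (closedBall a ε).indicator (fun _ => c / ε ^ N) y -
    (closedBall a (2 * r)).indicator (fun _ => C) y ≤ -Laplacian.laplacian ψ y

theorem exists_TFn (hP : S_PSI) (hN : 2 ≤ N) : ∃ c : ℝ, 0 < c ∧ ∀ r : ℝ, 0 < r →
    ∃ (C : ℝ) (κ l : ℝ → ℝ), 0 < C ∧ Tendsto (fun ε => ε ^ N * κ ε) (𝓝[>] 0) (𝓝 0) ∧
      Tendsto l (𝓝[>] 0) atTop ∧ ∀ ε : ℝ, 0 < ε → ε < r → ∀ a : E N,
        ∃ ψ : E N → ℝ, TFn r c C (κ ε) (l ε) ε a ψ := by
  obtain ⟨c, hc, h⟩ := hP N hN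
  refine ⟨c, hc, fun r hr => ?_⟩
  obtain ⟨C, κ, l, hC, h1, h2, h3⟩ := h r hr
  refine ⟨C, κ, l, hC, h1, h2, fun ε hε hεr a => ?_⟩
  obtain ⟨ψ, a1, a2, a3, a4, a5, a6, a7, a8, a9, a10, a11⟩ := h3 ε hε hεr
  have hεN : 0 < ε ^ N := pow_pos hε N
  refine ⟨fun y => ψ (y - a), ?_, ?_, fun y => a3 _, ?_, fun y => a6 _, ?_, ?_, ?_⟩
  · exact a1.comp (by fun_prop)
  · exact a2.comp_homeomorph (Homeomorph.subRight a)
  · rw [integral_sub_right_eq_self (fun y => ψ y) a]
    exact a5
  · intro ρ hρ y hy
    exact a7 ρ hρ _ hy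
  · intro y hy
    rw [mem_closedBall, dist_eq_norm] at hy
    exact a8 _ hy
  · intro y
    rw [lap_shift]
    have g1 := a9 (y - a)
    have g2 := a10 (y - a)
    have g3 := a11 (y - a)
    by_cases h4 : y ∈ closedBall a ε
    · have h5 : y ∈ closedBall a (2 * r) := closedBall_subset_closedBall (by linarith) h4
      rw [indicator_of_mem h4, indicator_of_mem h5]
      rw [mem_closedBall, dist_eq_norm] at h4
      have h6 := g1 h4
      rw [← div_le_iff₀ hεN] at h6
      linarith
    · rw [indicator_of_notMem h4]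
      by_cases h5 : y ∈ closedBall a (2 * r)
      · rw [indicator_of_mem h5]
        linarith
      · rw [indicator_of_notMem h5]
        rw [mem_closedBall, dist_eq_norm, not_le] at h5
        have := g3 (Or.inr h5.le)
        linarith

section st

variable {S : Set (E N)} {τ F M : ℝ} {Z H d : E N → ℝ}

theorem Static.M0 (h : Static S τ F M Z H d) : 0 ≤ M := (h.H_mem 0).1.trans (h.H_mem 0).2

theorem Static.absH (h : Static S τ F M Z H d) (x : E N) : |H x| ≤ M := by
  rw [abs_of_nonneg (h.H_mem x).1]; exact (h.H_mem x).2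

theorem Static.absZ (h : Static S τ F M Z H d) (x : E N) : |Z x| ≤ τ := by
  rw [abs_of_nonneg (h.Z_mem x).1]; exact (h.Z_mem x).2

theorem Static.absd (h : Static S τ F M Z H d) (x : E N) : |d x| ≤ 1 := by
  rw [abs_of_nonneg (h.d_mem x).1]; exact (h.d_mem x).2

/-- lower bound of `∫ H ψ` -/
theorem Static.lower (h : Static S τ F M Z H d) {ψ : E N → ℝ} (h1 : ContDiff ℝ ∞ ψ)
    (h2 : HasCompactSupport ψ) (h3 : ∀ y, 0 ≤ ψ y) :
    ∫ x, Z x * -Laplacian.laplacian ψ x ≤ ∫ x, H x * ψ x := by
  have h4 := h.eq ψ h1 h2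
  have h5 : 0 ≤ ∫ x, d x * ψ x := integral_nonneg fun x => mul_nonneg (h.d_mem x).1 (h3 x)
  have h6 : ∫ x, Z x * -Laplacian.laplacian ψ x = -∫ x, Z x * Laplacian.laplacian ψ x := by
    rw [← integral_neg]
    congr 1
    ext x
    ring
  rw [h6]
  linarith

/-- upper bound of `∫ H ψ` -/
theorem Static.upper (h : Static S τ F M Z H d) (hL : S_LAP0) (hτ : 0 ≤ τ) {r c C k l ε : ℝ}
    {a : E N} {ψ : E N → ℝ} (hψ : TFn r c C k l ε a ψ) (hC : 0 ≤ C) (hc : 0 ≤ c) (hε : 0 < ε) :
    ∫ x, H x * ψ x ≤ 4 * r ^ 2 * volume.real (ball (0 : E N) 1) +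
      τ * (C * volume.real (closedBall a (2 * r))) := by
  have h4 := h.eq ψ hψ.sm hψ.cs
  have hi : Integrable ψ := hψ.sm.continuous.integrable_of_hasCompactSupport hψ.cs
  have hlc := lap_cont hψ.sm
  have hls := lap_supp hψ.cs
  have hli : Integrable (Laplacian.laplacian ψ) := hlc.integrable_of_hasCompactSupport hls
  have h5 : ∫ x, d x * ψ x ≤ ∫ x, ψ x := by
    refine integral_mono (int_mul h.md h.absd hψ.sm.continuous hψ.cs) hi fun x => ?_
    have := mul_le_mul_of_nonneg_right (h.d_mem x).2 (hψ.nn x)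
    simpa using this
  have h6 : -∫ x, Z x * Laplacian.laplacian ψ x ≤
      τ * (C * volume.real (closedBall a (2 * r))) := by
    have h7 := hL N ψ hψ.sm hψ.cs
    have h8 : -∫ x, Z x * Laplacian.laplacian ψ x =
        ∫ x, (τ - Z x) * Laplacian.laplacian ψ x := by
      have e1 : (fun x => (τ - Z x) * Laplacian.laplacian ψ x) =
          fun x => τ * Laplacian.laplacian ψ x - Z x * Laplacian.laplacian ψ x := by
        ext x; ring
      rw [e1, integral_sub (hli.const_mul τ) (int_mul h.mZ h.absZ hlc hls),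
        integral_const_mul, h7]
      ring
    rw [h8]
    have h9 : ∫ x, (τ - Z x) * Laplacian.laplacian ψ x ≤
        ∫ x, (closedBall a (2 * r)).indicator (fun _ => τ * C) x := by
      refine integral_mono ?_ ?_ fun x => ?_
      · have hm : Measurable fun x => τ - Z x := measurable_const.sub h.mZ
        refine int_mul (M := τ) hm (fun x => ?_) hlc hls
        have := h.Z_mem x
        rw [abs_of_nonneg (by linarith [this.2])]
        linarith [this.1]
      · exact (integrable_indicator_iff measurableSet_closedBall).2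
          (integrableOn_const measure_closedBall_lt_top.ne)
      · have hz := h.Z_mem x
        have hl := hψ.lap x
        have h10 : 0 ≤ (closedBall a ε).indicator (fun _ => c / ε ^ N) x :=
          indicator_nonneg (fun _ _ => by positivity) x
        have h11 : Laplacian.laplacian ψ x ≤ (closedBall a (2 * r)).indicator (fun _ => C) x := by
          linarith
        have h12 : 0 ≤ (closedBall a (2 * r)).indicator (fun _ => C) x :=
          indicator_nonneg (fun _ _ => hC) x
        have h13 : (closedBall a (2 * r)).indicator (fun _ => τ * C) x =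
            τ * (closedBall a (2 * r)).indicator (fun _ => C) x := by
          by_cases hx : x ∈ closedBall a (2 * r)
          · rw [indicator_of_mem hx, indicator_of_mem hx]
          · rw [indicator_of_notMem hx, indicator_of_notMem hx, mul_zero]
        rw [h13]
        calc (τ - Z x) * Laplacian.laplacian ψ x
            ≤ (τ - Z x) * (closedBall a (2 * r)).indicator (fun _ => C) x :=
              mul_le_mul_of_nonneg_left h11 (by linarith [hz.2])
          _ ≤ τ * (closedBall a (2 * r)).indicator (fun _ => C) x :=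
              mul_le_mul_of_nonneg_right (by linarith [hz.1]) h12
    refine h9.trans (le_of_eq ?_)
    rw [integral_indicator measurableSet_closedBall, setIntegral_const, smul_eq_mul]
    ring
  have h14 := hψ.int
  linarith

end st

end Pool.Agent.Y744.NB
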