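import Pool.Agent.Y744.NB.Fin2

/-!
# NB: the final contradiction, main part (helper744)
-/

set_option autoImplicit false

open MeasureTheory Set Filter Topology Metric
open scoped ContDiff

namespace Pool.Agent.Y744.NB

/-- the data of the contradiction -/
structure Dt (N : ℕ) (τ F M r c C Q V L δ : ℝ) (κ l : ℝ → ℝ) (x : ℕ → E N) (ε : ℕ → ℝ)
    (φ : E N → ℝ) (ψ : ℕ → E N → ℝ) (Z H d : E N → ℝ) : Prop where
  st : Static (⋃ i, closedBall (x i) (ε i)) τ F M Z H d
  tau : 0 < τ
  tau1 : τ ≤ 1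
  Fp : 0 < F
  cp : 0 < c
  Cp : 0 < C
  rp : 0 < r
  Qd : Q = 4 * r ^ 2 * volume.real (ball (0 : E N) 1) +
    C * ((2 * r) ^ N * volume.real (ball (0 : E N) 1))
  ep : ∀ i, 0 < ε i
  tf : ∀ i, TFn r c C (κ (ε i)) (l (ε i)) (ε i) (x i) (ψ i)
  xb : ∀ i, ‖x i‖ ≤ 2
  sub : ∀ i, closedBall (x i) (ε i) ⊆ closedBall 0 2
  far : ∀ i j, i ≠ j → ∀ y ∈ closedBall (x i) (ε i), (1 / 2) ^ (i + 2) ≤ ‖y - x j‖
  l1 : ∀ i, 1 ≤ l (ε i)
  s1 : Summable fun i => Q / l (ε i)
  s1' : ∑' i, Q / l (ε i) ≤ δ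
  s2 : Summable fun i => Q / l (ε i) / ((1 / 2) ^ (i + 2)) ^ N
  s2' : ∑' i, Q / l (ε i) / ((1 / 2) ^ (i + 2)) ^ N ≤ δ
  ph : ContDiff ℝ ∞ φ
  phc : HasCompactSupport φ
  ph1 : ∀ y, φ y ∈ Icc (0:ℝ) 1
  phb : ∀ y ∈ closedBall (0 : E N) (2 + 2 * r), φ y = 1
  Vd : ∫ y, φ y = V
  Ld : ∫ y, |Laplacian.laplacian φ y| = L

section dt

variable {N : ℕ} {τ F M r c C Q V L δ : ℝ} {κ l : ℝ → ℝ} {x : ℕ → E N} {ε : ℕ → ℝ}
  {φ : E N → ℝ} {ψ : ℕ → E N → ℝ} {Z H d : E N → ℝ}

theorem Dt.Hint (h : Dt N τ F M r c C Q V L δ κ l x ε φ ψ Z H d) (i : ℕ) :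
    Integrable (fun y => H y * ψ i y) :=
  int_mul h.st.mH h.st.absH (h.tf i).sm.continuous (h.tf i).cs

theorem Dt.Honb (h : Dt N τ F M r c C Q V L δ κ l x ε φ ψ Z H d) (i : ℕ) :
    IntegrableOn H (closedBall (x i) (ε i)) := by
  refine Measure.integrableOn_of_bounded (M := M) measure_closedBall_lt_top.ne
    h.st.mH.aestronglyMeasurable (Eventually.of_forall fun y => ?_)
  rw [Real.norm_eq_abs]
  exact h.st.absH y

/-- the mass in one ball -/
theorem Dt.q (h : Dt N τ F M r c C Q V L δ κ l x ε φ ψ Z H d) (hL : S_LAP0) (i : ℕ) :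
    ∫ y in closedBall (x i) (ε i), H y ≤ Q / l (ε i) := by
  have hl : 0 < l (ε i) := by linarith [h.l1 i]
  have h1 := h.st.upper hL h.tau.le (h.tf i) h.Cp.le h.cp.le (h.ep i)
  rw [vol_ball (x i) (by linarith [h.rp] : 0 ≤ 2 * r)] at h1
  have h2 : τ * (C * ((2 * r) ^ N * volume.real (ball (0 : E N) 1))) ≤
      C * ((2 * r) ^ N * volume.real (ball (0 : E N) 1)) := by
    have h3 : 0 ≤ C * ((2 * r) ^ N * volume.real (ball (0 : E N) 1)) := by
      have := h.Cp
      have := h.rp
      have := vol_pos (N := N)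
      positivity
    have := h.tau1
    nlinarith
  have h4 : ∫ y, H y * ψ i y ≤ Q := by rw [h.Qd]; linarith
  have h5 : l (ε i) * ∫ y in closedBall (x i) (ε i), H y ≤
      ∫ y in closedBall (x i) (ε i), H y * ψ i y := by
    rw [← integral_const_mul]
    refine setIntegral_mono_on ((h.Honb i).const_mul _) (h.Hint i).integrableOn
      measurableSet_closedBall fun y hy => ?_
    rw [mul_comm]
    exact mul_le_mul_of_nonneg_left ((h.tf i).lo y hy) (h.st.H_mem y).1
  have h6 : ∫ y in closedBall (x i) (ε i), H y * ψ i y ≤ ∫ y, H y * ψ i y :=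
    setIntegral_le_integral (h.Hint i)
      (Eventually.of_forall fun y => mul_nonneg (h.st.H_mem y).1 ((h.tf i).nn y))
  rw [le_div_iff₀ hl, mul_comm]
  linarith

/-- splitting of an integral into the balls and the rest -/
theorem Dt.split (h : Dt N τ F M r c C Q V L δ κ l x ε φ ψ Z H d) {g : E N → ℝ}
    (hg : ContDiff ℝ ∞ g) (hgc : HasCompactSupport g) (hg0 : ∀ y, 0 ≤ g y) (b : ℕ → ℝ)
    (hb : Summable b) (hle : ∀ i, ∫ y in closedBall (x i) (ε i), H y * g y ≤ b i) :
    ∫ y, H y * g y ≤ (∑' i, b i) + τ * F * ∫ y, g y := by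
  have hi : Integrable (fun y => H y * g y) := int_mul h.st.mH h.st.absH hg.continuous hgc
  have hig : Integrable g := hg.continuous.integrable_of_hasCompactSupport hgc
  have hm : MeasurableSet (⋃ i, closedBall (x i) (ε i)) :=
    MeasurableSet.iUnion fun i => measurableSet_closedBall
  rw [← integral_add_compl hm hi]
  have h1 : ∫ y in ⋃ i, closedBall (x i) (ε i), H y * g y ≤ ∑' i, b i :=
    iUnion_le hi (fun y => mul_nonneg (h.st.H_mem y).1 (hg0 y)) _ b hb hle
  have h2 : ∫ y in (⋃ i, closedBall (x i) (ε i))ᶜ, H y * g y ≤ τ * F * ∫ y, g y := by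
    have h3 : ∫ y in (⋃ i, closedBall (x i) (ε i))ᶜ, H y * g y ≤
        ∫ y in (⋃ i, closedBall (x i) (ε i))ᶜ, τ * F * g y := by
      refine setIntegral_mono_on_ae hi.integrableOn (hig.const_mul _).integrableOn hm.compl ?_
      filter_upwards [h.st.bulk] with y hy hyS
      exact mul_le_mul_of_nonneg_right (hy hyS) (hg0 y)
    refine h3.trans ?_
    rw [← integral_const_mul]
    exact setIntegral_le_integral (hig.const_mul _) (Eventually.of_forall fun y =>
      mul_nonneg (mul_nonneg h.tau.le h.Fp.le) (hg0 y))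
  linarith

/-- the bulk -/
theorem Dt.Zphi (h : Dt N τ F M r c C Q V L δ κ l x ε φ ψ Z H d) (hL : S_LAP0) :
    ∫ y, Z y * φ y ≤ τ * (δ + τ * (F * V + L)) := by
  have h1 := h.st.bd φ h.ph h.phc fun y => (h.ph1 y).1
  have hip : Integrable (fun y => H y * φ y) := int_mul h.st.mH h.st.absH h.ph.continuous h.phc
  have h2 := h.split h.ph h.phc (fun y => (h.ph1 y).1) _ h.s1 (fun i => by
    refine (setIntegral_mono_on hip.integrableOn (h.Honb i) measurableSet_closedBall
      fun y hy => ?_).trans (h.q hL i)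
    exact mul_le_of_le_one_right (h.st.H_mem y).1 (h.ph1 y).2)
  rw [h.Vd] at h2
  rw [h.Ld] at h1
  have h3 := h.s1'
  refine h1.trans (mul_le_mul_of_nonneg_left ?_ h.tau.le)
  nlinarith

theorem Dt.Zon (h : Dt N τ F M r c C Q V L δ κ l x ε φ ψ Z H d) (a : E N) (R : ℝ) :
    IntegrableOn Z (closedBall a R) := by
  refine Measure.integrableOn_of_bounded (M := τ) measure_closedBall_lt_top.ne
    h.st.mZ.aestronglyMeasurable (Eventually.of_forall fun y => ?_)
  rw [Real.norm_eq_abs]
  exact h.st.absZ y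

/-- the main inequality -/
theorem Dt.main (h : Dt N τ F M r c C Q V L δ κ l x ε φ ψ Z H d) (hL : S_LAP0) (j : ℕ) :
    3 * τ / 4 * (c * volume.real (ball (0 : E N) 1)) ≤
      C * (τ * (δ + τ * (F * V + L))) + (4 * r ^ 2 * δ +
        M * volume.real (ball (0 : E N) 1) * (ε j ^ N * κ (ε j))) +
        τ * F * (4 * r ^ 2 * volume.real (ball (0 : E N) 1)) := by
  set W := volume.real (ball (0 : E N) 1) with hW
  have hWp : 0 < W := vol_pos
  have hM := h.st.M0
  have hej := h.ep j
  have hεN : 0 < ε j ^ N := pow_pos hej N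
  have hψ := h.tf j
  have h1 := h.st.lower hψ.sm hψ.cs hψ.nn
  -- lower bound
  have hlc := lap_cont hψ.sm
  have hls := lap_supp hψ.cs
  have hin : Integrable (fun y => Z y * -Laplacian.laplacian (ψ j) y) := by
    refine int_mul h.st.mZ h.st.absZ hlc.neg ?_
    exact hls.neg
  have hI1 : Integrable (fun y => (closedBall (x j) (ε j)).indicator
      (fun y => Z y * (c / ε j ^ N)) y) :=
    (integrable_indicator_iff measurableSet_closedBall).2 ((h.Zon _ _).mul_const _)
  have hI2 : Integrable (fun y => (closedBall (x j) (2 * r)).indicator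
      (fun y => Z y * C) y) :=
    (integrable_indicator_iff measurableSet_closedBall).2 ((h.Zon _ _).mul_const _)
  have h2 : ∫ y, ((closedBall (x j) (ε j)).indicator (fun y => Z y * (c / ε j ^ N)) y -
      (closedBall (x j) (2 * r)).indicator (fun y => Z y * C) y) ≤
        ∫ y, Z y * -Laplacian.laplacian (ψ j) y := by
    refine integral_mono (hI1.sub hI2) hin fun y => ?_
    have h3 := mul_le_mul_of_nonneg_left (hψ.lap y) (h.st.Z_mem y).1
    refine le_trans (le_of_eq ?_) h3
    by_cases a1 : y ∈ closedBall (x j) (ε j) <;> by_cases a2 : y ∈ closedBall (x j) (2 * r) <;>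
      simp [a1, a2, mul_sub]
  rw [integral_sub hI1 hI2, integral_indicator measurableSet_closedBall,
    integral_indicator measurableSet_closedBall, integral_mul_const, integral_mul_const] at h2
  have h4 : 3 * τ / 4 * (ε j ^ N * W) ≤ ∫ y in closedBall (x j) (ε j), Z y := by
    have h5 : ∫ y in closedBall (x j) (ε j), 3 * τ / 4 ≤ ∫ y in closedBall (x j) (ε j), Z y := by
      refine setIntegral_mono_on_ae (integrableOn_const measure_closedBall_lt_top.ne) (h.Zon _ _)
        measurableSet_closedBall ?_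
      filter_upwards [h.st.spike] with y hy hyj
      exact hy (mem_iUnion.2 ⟨j, hyj⟩)
    rw [setIntegral_const, smul_eq_mul, vol_ball _ hej.le] at h5
    linarith
  have h6 : ∫ y in closedBall (x j) (2 * r), Z y ≤ ∫ y, Z y * φ y := by
    have hip : Integrable (fun y => Z y * φ y) := int_mul h.st.mZ h.st.absZ h.ph.continuous h.phc
    refine le_trans (le_of_eq ?_) (setIntegral_le_integral (s := closedBall (x j) (2 * r)) hip
      (Eventually.of_forall fun y => mul_nonneg (h.st.Z_mem y).1 (h.ph1 y).1))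
    refine setIntegral_congr_fun measurableSet_closedBall fun y hy => ?_
    have h7 : y ∈ closedBall (0 : E N) (2 + 2 * r) := by
      rw [mem_closedBall, dist_eq_norm] at hy
      rw [mem_closedBall_zero_iff]
      have := h.xb j
      calc ‖y‖ = ‖(y - x j) + x j‖ := by rw [sub_add_cancel]
        _ ≤ ‖y - x j‖ + ‖x j‖ := norm_add_le _ _
        _ ≤ 2 + 2 * r := by linarith
    rw [h.phb y h7, mul_one]
  have h8 := h.Zphi hL
  have h9 : 3 * τ / 4 * (c * W) - C * (τ * (δ + τ * (F * V + L))) ≤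
      ∫ y, Z y * -Laplacian.laplacian (ψ j) y := by
    refine le_trans ?_ h2
    have h10 : 3 * τ / 4 * (c * W) ≤ (∫ y in closedBall (x j) (ε j), Z y) * (c / ε j ^ N) := by
      have h11 := mul_le_mul_of_nonneg_right h4 (by have := h.cp; positivity : 0 ≤ c / ε j ^ N)
      refine le_trans (le_of_eq ?_) h11
      field_simp
    have h12 : (∫ y in closedBall (x j) (2 * r), Z y) * C ≤
        C * (τ * (δ + τ * (F * V + L))) := by
      rw [mul_comm]
      exact mul_le_mul_of_nonneg_left (h6.trans h8) h.Cp.le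
    linarith
  -- upper bound
  have h13 : ∀ i, ∫ y in closedBall (x i) (ε i), H y * ψ j y ≤
      4 * r ^ 2 * (Q / l (ε i) / ((1 / 2) ^ (i + 2)) ^ N) +
        if i = j then M * W * (ε j ^ N * κ (ε j)) else 0 := by
    intro i
    have hq := h.q hL i
    have hρ : 0 < (((1:ℝ) / 2) ^ (i + 2)) ^ N := by positivity
    by_cases hij : i = j
    · subst hij
      rw [if_pos rfl]
      have h14 : 0 ≤ 4 * r ^ 2 * (Q / l (ε i) / ((1 / 2) ^ (i + 2)) ^ N) := by
        have h15 : 0 ≤ Q / l (ε i) :=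
          (integral_nonneg fun y => (h.st.H_mem y).1).trans hq
        positivity
      have h16 : ∫ y in closedBall (x i) (ε i), H y * ψ i y ≤
          ∫ y in closedBall (x i) (ε i), M * κ (ε i) := by
        refine setIntegral_mono_on (h.Hint i).integrableOn
          (integrableOn_const measure_closedBall_lt_top.ne) measurableSet_closedBall fun y _ => ?_
        exact mul_le_mul (h.st.H_mem y).2 (hψ.up y) (hψ.nn y) hM
      rw [setIntegral_const, smul_eq_mul, vol_ball _ hej.le] at h16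
      have h17 : ε i ^ N * W * (M * κ (ε i)) = M * W * (ε i ^ N * κ (ε i)) := by ring
      rw [← hW, h17] at h16
      linarith
    · rw [if_neg hij, add_zero]
      have h18 : ∫ y in closedBall (x i) (ε i), H y * ψ j y ≤
          ∫ y in closedBall (x i) (ε i), (4 * r ^ 2 / ((1 / 2) ^ (i + 2)) ^ N) * H y := by
        refine setIntegral_mono_on (h.Hint j).integrableOn ((h.Honb i).const_mul _)
          measurableSet_closedBall fun y hy => ?_
        have h19 := hψ.far ((1 / 2) ^ (i + 2)) (by positivity) y (h.far i j hij y hy)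
        rw [← le_div_iff₀ hρ] at h19
        rw [mul_comm]
        exact mul_le_mul_of_nonneg_right h19 (h.st.H_mem y).1
      rw [integral_const_mul] at h18
      refine h18.trans ?_
      have h20 := mul_le_mul_of_nonneg_left hq (by positivity :
        0 ≤ 4 * r ^ 2 / (((1:ℝ) / 2) ^ (i + 2)) ^ N)
      refine h20.trans (le_of_eq ?_)
      ring
  have hs1 : Summable fun i => 4 * r ^ 2 * (Q / l (ε i) / ((1 / 2) ^ (i + 2)) ^ N) :=
    h.s2.mul_left _
  have hs2 : Summable fun i : ℕ => if i = j then M * W * (ε j ^ N * κ (ε j)) else 0 :=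
    summable_of_ne_finset_zero (s := {j}) fun i hi => by
      rw [if_neg (by simpa using hi)]
  have h21 := h.split hψ.sm hψ.cs hψ.nn _ (hs1.add hs2) h13
  rw [hs1.tsum_add hs2, tsum_mul_left, tsum_ite_eq] at h21
  have h22 : 4 * r ^ 2 * ∑' i, Q / l (ε i) / ((1 / 2) ^ (i + 2)) ^ N ≤ 4 * r ^ 2 * δ :=
    mul_le_mul_of_nonneg_left h.s2' (by positivity)
  have h23 : τ * F * ∫ y, ψ j y ≤ τ * F * (4 * r ^ 2 * W) :=
    mul_le_mul_of_nonneg_left hψ.int (mul_nonneg h.tau.le h.Fp.le)
  linarith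

end dt

end Pool.Agent.Y744.NB
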