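import Pool.Agent.Y744.NB.Fin3

/-!
# NB: the final contradiction (helper744)
-/

set_option autoImplicit false

open MeasureTheory Set Filter Topology Metric
open scoped ContDiff

namespace Pool.Agent.Y744.NB

theorem MFIN (hP : S_PSI) (hR : S_PAR) (hL : S_LAP0) : S_FIN := by
  intro N F hN hF
  obtain ⟨c, hc, hψ⟩ := exists_TFn hP hN
  set W := volume.real (ball (0 : E N) 1) with hW
  have hWp : 0 < W := vol_pos
  obtain ⟨r, hr, hr2⟩ : ∃ r : ℝ, 0 < r ∧ 4 * r ^ 2 * F ≤ c / 16 := by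
    refine ⟨min 1 (c / (64 * F)), lt_min one_pos (by positivity), ?_⟩
    set r := min 1 (c / (64 * F)) with hrd
    have h1 : r ≤ 1 := min_le_left _ _
    have h2 : r ≤ c / (64 * F) := min_le_right _ _
    have h3 : 0 < r := lt_min one_pos (by positivity)
    have h4 : r ^ 2 ≤ r := by nlinarith
    have h5 : r * (64 * F) ≤ c := by rwa [le_div_iff₀ (by positivity)] at h2
    nlinarith
  obtain ⟨C, κ, l, hC, hκ, hl, hex⟩ := hψ r hr
  -- cutoff
  let φ₀ : ContDiffBump (0 : E N) := ⟨2 + 2 * r, 3 + 2 * r, by linarith, by linarith⟩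
  set φ : E N → ℝ := fun y => φ₀ y with hφ
  have hφs : ContDiff ℝ ∞ φ := φ₀.contDiff
  have hφc : HasCompactSupport φ := φ₀.hasCompactSupport
  have hφ1 : ∀ y, φ y ∈ Icc (0:ℝ) 1 := fun y => ⟨φ₀.nonneg, φ₀.le_one⟩
  have hφb : ∀ y ∈ closedBall (0 : E N) (2 + 2 * r), φ y = 1 := fun y hy =>
    φ₀.one_of_mem_closedBall hy
  set V := ∫ y, φ y with hV
  set L := ∫ y, |Laplacian.laplacian φ y| with hLd
  have hV0 : 0 ≤ V := integral_nonneg fun y => (hφ1 y).1
  have hL0 : 0 ≤ L := integral_nonneg fun y => abs_nonneg _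
  have hD : 0 < 16 * (C * (F * V + L) + 1) := by positivity
  refine ⟨min 1 (c * W / (16 * (C * (F * V + L) + 1))), lt_min one_pos (by positivity),
    fun τ hτ hτ1 η hη => ?_⟩
  have ht1 : τ ≤ 1 := hτ1.trans (min_le_left _ _)
  have ht2 : τ * (16 * (C * (F * V + L) + 1)) ≤ c * W := by
    rw [← le_div_iff₀ hD]; exact hτ1.trans (min_le_right _ _)
  set Q := 4 * r ^ 2 * W + C * ((2 * r) ^ N * W) with hQ
  have hQp : 0 < Q := by positivity
  set θ : ℝ → ℝ := fun ε => Q / max (l ε) 1 with hθ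
  have hθ0 : ∀ ε, 0 < ε → 0 ≤ θ ε := fun ε _ => by positivity
  have hθl : Tendsto θ (𝓝[>] 0) (𝓝 0) := by
    have h1 : Tendsto (fun ε => max (l ε) 1) (𝓝[>] 0) atTop :=
      tendsto_atTop_mono (fun ε => le_max_left _ _) hl
    exact h1.const_div_atTop Q
  set δ := min (Q / 2) (min (c * W / (16 * C)) (τ * (c * W) / (64 * r ^ 2))) with hδ
  have hδp : 0 < δ := by
    refine lt_min (by positivity) (lt_min (by positivity) (by positivity))
  have hδ1 : δ ≤ Q / 2 := min_le_left _ _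
  have hδ2 : C * δ ≤ c * W / 16 := by
    have h1 : δ ≤ c * W / (16 * C) := (min_le_right _ _).trans (min_le_left _ _)
    rw [le_div_iff₀ (by positivity)] at h1
    linarith
  have hδ3 : 4 * r ^ 2 * δ ≤ τ * (c * W) / 16 := by
    have h1 : δ ≤ τ * (c * W) / (64 * r ^ 2) := (min_le_right _ _).trans (min_le_right _ _)
    rw [le_div_iff₀ (by positivity)] at h1
    linarith
  obtain ⟨x, ε, h1, h2, h3, h4, h5, h6, h7, h8, h9⟩ :=
    hR N r η δ θ (by omega) hr hη hδp hθ0 hθl
  refine ⟨⋃ i, closedBall (x i) (ε i), MeasurableSet.iUnion fun i => measurableSet_closedBall,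
    iUnion_subset h3, h5, ?_⟩
  intro M Z H d hS
  have hθi : ∀ i, θ (ε i) ≤ δ := fun i =>
    (h6.le_tsum i fun j _ => hθ0 _ (h1 j).1).trans h7
  have hl1 : ∀ i, 1 ≤ l (ε i) := by
    intro i
    by_contra hcon
    push Not at hcon
    have h10 : θ (ε i) = Q := by
      simp only [hθ]
      rw [max_eq_right hcon.le, div_one]
    have := hθi i
    linarith
  have hθe : ∀ i, θ (ε i) = Q / l (ε i) := by
    intro i
    simp only [hθ]
    rw [max_eq_left (hl1 i)]
  simp only [hθe] at h6 h7 h8 h9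
  choose ψ hψi using fun i => hex (ε i) (h1 i).1 (h1 i).2 (x i)
  have hdt : Dt N τ F M r c C Q V L δ κ l x ε φ ψ Z H d :=
    { st := hS, tau := hτ, tau1 := ht1, Fp := hF, cp := hc, Cp := hC, rp := hr, Qd := rfl
      ep := fun i => (h1 i).1, tf := hψi
      xb := fun i => by
        have := h3 i (mem_closedBall_self (h1 i).1.le)
        rwa [mem_closedBall_zero_iff] at this
      sub := h3, far := h4, l1 := hl1, s1 := h6, s1' := h7, s2 := h8, s2' := h9
      ph := hφs, phc := hφc, ph1 := hφ1, phb := hφb, Vd := rfl, Ld := rfl }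
  -- the limit
  have hlim : Tendsto (fun j => M * W * (ε j ^ N * κ (ε j))) atTop (𝓝 0) := by
    have h10 : Tendsto ε atTop (𝓝[>] 0) :=
      tendsto_nhdsWithin_iff.2 ⟨h2, Eventually.of_forall fun i => (h1 i).1⟩
    have h11 := (hκ.comp h10).const_mul (M * W)
    simpa using h11
  have hpos : 0 < τ * (c * W) / 16 := by positivity
  obtain ⟨j, hj⟩ := (hlim.eventually (gt_mem_nhds hpos)).exists
  have hm := hdt.main hL j
  have e1 : C * (τ * (δ + τ * (F * V + L))) ≤ τ * (c * W) / 16 + τ * (c * W) / 16 := by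
    have e2 : τ * (C * δ) ≤ τ * (c * W / 16) := mul_le_mul_of_nonneg_left hδ2 hτ.le
    have e3 : τ * (τ * (C * (F * V + L))) ≤ τ * (c * W / 16) := by
      refine mul_le_mul_of_nonneg_left ?_ hτ.le
      nlinarith
    nlinarith
  have e4 : τ * F * (4 * r ^ 2 * W) ≤ τ * (c * W) / 16 := by
    have e5 := mul_le_mul_of_nonneg_left hr2 (by positivity : 0 ≤ τ * W)
    nlinarith
  have e6 : 3 * τ / 4 * (c * W) = 12 * (τ * (c * W) / 16) := by ring
  rw [← hW, e6] at hm
  linarith

end Pool.Agent.Y744.NB
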